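import Mathlib

namespace Pool.Agent.Results.MP_1e20d6_nt.TwoCharacters

open Polynomial

/-- The range sum: the values are read as integers in `0, …, p - 1` and added in `ℕ`. -/
noncomputable def rangeSum (p : ℕ) [NeZero p] (P : (ZMod p)[X]) : ℕ := ∑ x : ZMod p, (P.eval x).val

lemma chi_pow (p : ℕ) [Fact p.Prime] (hp : p ≠ 2) (x : ZMod p) :
    x ^ ((p - 1) / 2) = ((quadraticChar (ZMod p) x : ℤ) : ZMod p) := by
  have h2 : ringChar (ZMod p) ≠ 2 := by rw [ZMod.ringChar_zmod_n]; exact hp
  have h := quadraticChar_eq_pow_of_char_ne_two' h2 x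
  rw [ZMod.card] at h
  rw [h]
  congr 1
  have := (Fact.out : p.Prime).eq_two_or_odd
  omega

lemma chi_abs (p : ℕ) [Fact p.Prime] (x : ZMod p) :
    -1 ≤ quadraticChar (ZMod p) x ∧ quadraticChar (ZMod p) x ≤ 1 := by
  rcases quadraticChar_isQuadratic (ZMod p) x with h | h | h <;> rw [h] <;> norm_num

theorem result (k : ℕ) (hk : 2 ≤ k) (p : ℕ) [Fact p.Prime] (h7 : 7 ≤ p) (hkp : k + 3 ≤ p) :
    ∃ P : (ZMod p)[X], rangeSum p P = k * p ∧ P.natDegree ≤ (p - 1) / 2 ∧
      ¬ ∃ a b c d : ZMod p, a ≠ 0 ∧
        ∀ x : ZMod p, P.eval x = c * ((a * x + b) ^ ((p - 1) / 2) + 1) + d := by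
  have hp2 : p ≠ 2 := by omega
  have h2 : ringChar (ZMod p) ≠ 2 := by rw [ZMod.ringChar_zmod_n]; exact hp2
  obtain ⟨h, hh⟩ : ∃ h, h = (p - 1) / 2 := ⟨_, rfl⟩
  have h3 : 3 ≤ h := by omega
  have hhp : 2 * h < p := by omega
  have hdeg : (X ^ h + (X + 1) ^ h + C (k : ZMod p) : (ZMod p)[X]).natDegree ≤ h := by
    have : ((X + 1 : (ZMod p)[X]) ^ h).natDegree ≤ h := by
      refine natDegree_pow_le.trans ?_
      have : (X + 1 : (ZMod p)[X]).natDegree ≤ 1 := by compute_degree
      nlinarith
    refine (natDegree_add_le _ _).trans (max_le ((natDegree_add_le _ _).trans (max_le ?_ this)) ?_)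
    · simp
    · simp
  refine ⟨X ^ h + (X + 1) ^ h + C (k : ZMod p), ?_, hdeg.trans hh.le, ?_⟩
  · have key : ∀ x : ZMod p, (((X ^ h + (X + 1) ^ h + C (k : ZMod p) : (ZMod p)[X]).eval x).val : ℤ)
        = quadraticChar (ZMod p) x + quadraticChar (ZMod p) (x + 1) + k := by
      intro x
      have e : (X ^ h + (X + 1) ^ h + C (k : ZMod p) : (ZMod p)[X]).eval x
          = ((quadraticChar (ZMod p) x + quadraticChar (ZMod p) (x + 1) + k : ℤ) : ZMod p) := by
        simp only [eval_add, eval_pow, eval_X, eval_one, eval_C, hh, chi_pow p hp2]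
        push_cast; ring
      rw [e, ZMod.val_intCast]
      have a1 := chi_abs p x
      have a2 := chi_abs p (x + 1)
      apply Int.emod_eq_of_lt <;> omega
    have s1 : ∑ x : ZMod p, quadraticChar (ZMod p) x = 0 := quadraticChar_sum_zero h2
    have s2 : ∑ x : ZMod p, quadraticChar (ZMod p) (x + 1) = 0 := by
      rw [← s1]
      exact Equiv.sum_comp (Equiv.addRight (1 : ZMod p)) (fun x => quadraticChar (ZMod p) x)
    have : ((rangeSum p (X ^ h + (X + 1) ^ h + C (k : ZMod p)) : ℕ) : ℤ) = (k : ℤ) * p := by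
      unfold rangeSum
      push_cast
      simp only [key, Finset.sum_add_distrib, s1, s2]
      simp [ZMod.card, mul_comm]
    exact_mod_cast this
  · rintro ⟨a, b, c, d, ha, H⟩
    rw [← hh] at H
    have hdeg2 : (C c * ((C a * X + C b) ^ h + 1) + C d : (ZMod p)[X]).natDegree ≤ h := by
      have : ((C a * X + C b : (ZMod p)[X]) ^ h).natDegree ≤ h := by
        refine natDegree_pow_le.trans ?_
        have : (C a * X + C b : (ZMod p)[X]).natDegree ≤ 1 := by compute_degree
        nlinarith
      refine (natDegree_add_le _ _).trans (max_le ((natDegree_C_mul_le _ _).trans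
        ((natDegree_add_le _ _).trans (max_le this ?_))) ?_) <;> simp
    have E : (X ^ h + (X + 1) ^ h + C (k : ZMod p) : (ZMod p)[X])
        = C c * ((C a * X + C b) ^ h + 1) + C d := by
      apply eq_of_natDegree_lt_card_of_eval_eq _ _ (f := id) Function.injective_id
      · intro x; simp only [id]; rw [H x]; simp
      · rw [ZMod.card]; exact max_lt (by omega) (by omega)
    have co : ∀ j, 1 ≤ j → j ≤ h → ((if j = h then 1 else 0) + (h.choose j : ZMod p))
        = c * (a ^ j * b ^ (h - j) * (h.choose j : ZMod p)) := by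
      intro j hj hjh
      have := congrArg (fun Q => coeff Q j) E
      have e1 : ((C a * X + C b : (ZMod p)[X]) ^ h).coeff j
          = a ^ j * b ^ (h - j) * (h.choose j : ZMod p) := by
        have : (C a * X + C b : (ZMod p)[X]) = (X + C b).comp (C a * X) := by simp
        rw [this, ← pow_comp, comp_C_mul_X_coeff, coeff_X_add_C_pow]; ring
      simp only [coeff_add, coeff_X_pow, coeff_X_add_one_pow, coeff_C_mul, e1, coeff_C, coeff_one,
        if_neg (show j ≠ 0 by omega)] at this
      simpa using this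
    have nz : ∀ j, j ≤ h → (h.choose j : ZMod p) ≠ 0 := by
      intro j hj
      rw [Ne, ZMod.natCast_eq_zero_iff]
      intro hd
      have : p ∣ h.factorial := hd.trans ⟨j.factorial * (h - j).factorial, by
        rw [← Nat.choose_mul_factorial_mul_factorial hj]; ring⟩
      have := ((Fact.out : p.Prime).dvd_factorial).1 this
      omega
    obtain ⟨m, rfl⟩ : ∃ m, h = m + 2 := ⟨h - 2, by omega⟩
    have c0 := co (m + 2) (by omega) le_rfl
    have c1 := co (m + 1) (by omega) (by omega)
    have c2 := co m (by omega) (by omega)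
    have n1 := nz (m + 1) (by omega)
    have n2 := nz m (by omega)
    rw [if_neg (by omega), show m + 2 - (m + 1) = 1 by omega] at c1
    rw [if_neg (by omega), show m + 2 - m = 2 by omega] at c2
    simp only [if_true, Nat.choose_self, Nat.sub_self, pow_zero, Nat.cast_one, mul_one] at c0
    have d1 : 1 = c * (a ^ (m + 1) * b) := by
      apply mul_right_cancel₀ n1; linear_combination c1
    have d2 : 1 = c * (a ^ m * b ^ 2) := by
      apply mul_right_cancel₀ n2; linear_combination c2
    have : (1 : ZMod p) = 0 := by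
      linear_combination (c * (a ^ m * b ^ 2)) * c0 + 2 * d2 - (1 + c * (a ^ (m + 1) * b)) * d1
    exact one_ne_zero this

end Pool.Agent.Results.MP_1e20d6_nt.TwoCharacters
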